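import Mathlib

/-!
# Polygons with constant distances: coordinates, and deformation into one more dimension
-/

namespace Pool.Agent.J6H78.EG

open Filter Topology

variable {n : ℕ} [NeZero n]

/-- From coordinate functions to a polygon in Euclidean space. -/
theorem bridge {m : ℕ} {ι : Type*} [Fintype ι] (hι : Fintype.card ι = m) (k : ℕ)
    (y : ι → ZMod n → ℝ)
    (hlin : LinearIndependent ℝ (fun o : Option ι => o.elim (1 : ZMod n → ℝ) y))
    (c : ℕ → ℝ) (hc : ∀ j : ℕ, 1 ≤ j → j ≤ k → ∀ i : ZMod n,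
      ∑ a, (y a i - y a (i + (j : ZMod n))) ^ 2 = c j) :
    ∃ x : ZMod n → EuclideanSpace ℝ (Fin m),
      (∃ c : ℕ → ℝ, ∀ j : ℕ, 1 ≤ j → j ≤ k → ∀ i : ZMod n,
        dist (x i) (x (i + (j : ZMod n))) = c j) ∧
      affineSpan ℝ (Set.range x) = ⊤ ∧ (∀ i j, x i = x j → ∀ a, y a i = y a j) := by
  classical
  let e : Fin m ≃ ι := (Fintype.equivFinOfCardEq hι).symm
  let x : ZMod n → EuclideanSpace ℝ (Fin m) := fun i => WithLp.toLp 2 (fun t => y (e t) i)
  refine ⟨x, ⟨fun j => √(c j), fun j h1 h2 i => ?_⟩, ?_, fun i j hij a => ?_⟩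
  · show dist (x i) (x (i + (j : ZMod n))) = √(c j)
    rw [EuclideanSpace.dist_eq, ← hc j h1 h2 i]
    congr 1
    simp only [x, Real.dist_eq, sq_abs]
    exact Equiv.sum_comp e (fun a => (y a i - y a (i + (j : ZMod n))) ^ 2)
  · rw [AffineSubspace.affineSpan_eq_top_iff_vectorSpan_eq_top_of_nonempty ℝ _ _
      (Set.range_nonempty x), ← Submodule.orthogonal_eq_bot_iff, eq_bot_iff]
    intro v hv
    rw [Submodule.mem_orthogonal] at hv
    have h1 : ∀ i, ∑ t, v t * (y (e t) i - y (e t) 0) = 0 := by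
      intro i
      have h := hv (x i - x 0) (vsub_mem_vectorSpan ℝ (Set.mem_range_self i)
        (Set.mem_range_self 0))
      rw [PiLp.inner_apply] at h
      simpa [x] using h
    rw [Fintype.linearIndependent_iff] at hlin
    have h2 := hlin (fun o => o.elim (-∑ t, v t * y (e t) 0) (fun a => v (e.symm a))) (by
      rw [Fintype.sum_option]
      ext i
      have h3 := h1 i
      simp only [Option.elim_none, Option.elim_some, Pi.add_apply, Pi.smul_apply, Pi.one_apply,
        smul_eq_mul, Finset.sum_apply, Pi.zero_apply, mul_one]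
      rw [← Equiv.sum_comp e]
      simp only [Equiv.symm_apply_apply]
      simp only [mul_sub, Finset.sum_sub_distrib] at h3
      linarith)
    rw [Submodule.mem_bot]
    ext t
    have := h2 (some (e t))
    simpa using this
  · have := congrFun (congrArg WithLp.ofLp hij) (e.symm a)
    simpa [x] using this

section Deform

variable {ι : Type*} [Fintype ι] {k : ℕ}

/-- The other end of an edge. -/
def sh (q : Fin k × ZMod n) : ZMod n := q.2 + (((q.1 : ℕ) + 1 : ℕ) : ZMod n)

/-- The quadratic map. -/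
def Φ (p : (ι → ZMod n → ℝ) × (Fin k → ℝ)) (q : Fin k × ZMod n) : ℝ :=
  ∑ a, (p.1 a q.2 - p.1 a (sh q)) ^ 2 - p.2 q.1

/-- Coordinates of the first part. -/
noncomputable def crd (a : ι) (i : ZMod n) : ((ι → ZMod n → ℝ) × (Fin k → ℝ)) →L[ℝ] ℝ :=
  (ContinuousLinearMap.proj (R := ℝ) i).comp
    ((ContinuousLinearMap.proj (R := ℝ) (φ := fun _ : ι => ZMod n → ℝ) a).comp
      (ContinuousLinearMap.fst ℝ _ _))

/-- Coordinates of the second part. -/
noncomputable def crd2 (j : Fin k) : ((ι → ZMod n → ℝ) × (Fin k → ℝ)) →L[ℝ] ℝ :=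
  (ContinuousLinearMap.proj (R := ℝ) j).comp (ContinuousLinearMap.snd ℝ _ _)

/-- The derivative. -/
noncomputable def DΦ (y : ι → ZMod n → ℝ) :
    ((ι → ZMod n → ℝ) × (Fin k → ℝ)) →L[ℝ] (Fin k × ZMod n → ℝ) :=
  ContinuousLinearMap.pi fun q =>
    ∑ a, (2 * (y a q.2 - y a (sh q))) • (crd a q.2 - crd a (sh q)) - crd2 q.1

theorem DΦ_apply (y : ι → ZMod n → ℝ) (p : (ι → ZMod n → ℝ) × (Fin k → ℝ)) (q : Fin k × ZMod n) :
    DΦ y p q = ∑ a, 2 * (y a q.2 - y a (sh q)) * (p.1 a q.2 - p.1 a (sh q)) - p.2 q.1 := by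
  simp [DΦ, crd, crd2]

theorem hasStrict (p : (ι → ZMod n → ℝ) × (Fin k → ℝ)) : HasStrictFDerivAt
    (Φ : (ι → ZMod n → ℝ) × (Fin k → ℝ) → Fin k × ZMod n → ℝ) (DΦ p.1) p := by
  rw [hasStrictFDerivAt_pi']
  intro q
  have h1 : HasStrictFDerivAt (fun p : (ι → ZMod n → ℝ) × (Fin k → ℝ) => p.2 q.1)
      (crd2 q.1) p := (crd2 (ι := ι) (n := n) q.1).hasStrictFDerivAt
  have h2 : ∀ a ∈ (Finset.univ : Finset ι), HasStrictFDerivAt
      (fun p : (ι → ZMod n → ℝ) × (Fin k → ℝ) => (p.1 a q.2 - p.1 a (sh q)) ^ 2)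
      ((2 * (p.1 a q.2 - p.1 a (sh q))) • (crd a q.2 - crd a (sh q))) p := by
    intro a _
    have h3 : HasStrictFDerivAt (fun p : (ι → ZMod n → ℝ) × (Fin k → ℝ) =>
        p.1 a q.2 - p.1 a (sh q)) (crd a q.2 - crd a (sh q)) p :=
      (crd (k := k) a q.2 - crd a (sh q)).hasStrictFDerivAt
    have h4 := h3.pow 2
    have e1 : (2 • (p.1 a q.2 - p.1 a (sh q)) ^ (2 - 1)) • (crd (k := k) a q.2 - crd a (sh q)) =
        (2 * (p.1 a q.2 - p.1 a (sh q))) • (crd (k := k) a q.2 - crd a (sh q)) := by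
      simp [two_mul, two_smul]
    rw [e1] at h4
    exact h4
  exact (HasStrictFDerivAt.fun_sum h2).sub h1

/-- A configuration without stresses can be deformed in the direction of a new coordinate. -/
theorem deform (y : ι → ZMod n → ℝ) (c : Fin k → ℝ)
    (hy : ∀ (j : Fin k) (i : ZMod n), ∑ a, (y a i - y a (sh (j, i))) ^ 2 = c j)
    (hstress : ∀ l : Fin k → ZMod n → ℝ, (∀ j, ∑ i, l j i = 0) →
      (∀ (a : ι) (v : ZMod n → ℝ), ∑ j : Fin k, ∑ i, l j i *
        (y a i - y a (sh (j, i))) * (v i - v (sh (j, i))) = 0) →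
      l = 0)
    (P : (ι → ZMod n → ℝ) → Prop) (hP : ∀ᶠ z in 𝓝 y, P z) (w : ZMod n → ℝ) :
    ∃ ε : ℝ, 0 < ε ∧ ∃ z : ι → ZMod n → ℝ, P z ∧ ∃ c' : Fin k → ℝ, ∀ (j : Fin k) (i : ZMod n),
      ∑ a, (z a i - z a (sh (j, i))) ^ 2 + (ε * w i - ε * w (sh (j, i))) ^ 2 = c' j := by
  classical
  have hsurj : (DΦ (k := k) y).range = ⊤ := by
    by_contra hne
    obtain ⟨f, hf0, hf⟩ := Submodule.exists_le_ker_of_lt_top _ (lt_top_iff_ne_top.2 hne)
    apply hf0
    let l : Fin k → ZMod n → ℝ := fun j i => f (Pi.single (j, i) 1)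
    have hfx : ∀ x : Fin k × ZMod n → ℝ, f x = ∑ j, ∑ i, l j i * x (j, i) := by
      intro x
      have h1 : x = ∑ q : Fin k × ZMod n, x q • (Pi.single q 1 : Fin k × ZMod n → ℝ) := by
        ext q
        simp [Finset.sum_apply, Pi.single_apply]
      conv_lhs => rw [h1]
      rw [map_sum, Fintype.sum_prod_type]
      refine Finset.sum_congr rfl fun j _ => Finset.sum_congr rfl fun i _ => ?_
      rw [map_smul, smul_eq_mul, mul_comm]
    have hzero : ∀ p : (ι → ZMod n → ℝ) × (Fin k → ℝ),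
        ∑ j, ∑ i, l j i * DΦ y p (j, i) = 0 := by
      intro p
      rw [← hfx]
      exact hf (LinearMap.mem_range_self _ p)
    have hl : l = 0 := by
      apply hstress
      · intro j
        have := hzero (0, -Pi.single j 1)
        simp only [DΦ_apply] at this
        simpa [Pi.single_apply, Finset.sum_ite_eq] using this
      · intro a v
        have := hzero (Pi.single a v, 0)
        simp only [DΦ_apply] at this
        have h2 : ∀ (j : Fin k) (i : ZMod n), l j i * (∑ b, 2 * (y b i - y b (sh (j, i)))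
            * ((Pi.single a v : ι → ZMod n → ℝ) b i -
              (Pi.single a v : ι → ZMod n → ℝ) b (sh (j, i))) - (0 : Fin k → ℝ) j) =
            2 * (l j i * (y a i - y a (sh (j, i))) * (v i - v (sh (j, i)))) := by
          intro j i
          rw [Finset.sum_eq_single a]
          · simp
            ring
          · intro b _ hb
            simp [Pi.single_eq_of_ne hb]
          · intro h
            exact absurd (Finset.mem_univ a) h
        rw [Finset.sum_congr rfl fun j _ => Finset.sum_congr rfl fun i _ => h2 j i] at this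
        simp only [← Finset.mul_sum] at this
        linarith
    apply LinearMap.ext
    intro x
    rw [hfx, hl]
    simp
  have hmap := (hasStrict (y, c)).map_nhds_eq_of_surj hsurj
  have h0 : (Φ (y, c) : Fin k × ZMod n → ℝ) = 0 := by
    ext q
    have := hy q.1 q.2
    simp only [Φ, Pi.zero_apply]
    simp only [Prod.mk.eta] at this
    rw [this, sub_self]
  rw [h0] at hmap
  have hP' : ∀ᶠ p : (ι → ZMod n → ℝ) × (Fin k → ℝ) in 𝓝 (y, c), P p.1 :=
    (continuous_fst.tendsto (y, c)).eventually hP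
  have hmem : {q : Fin k × ZMod n → ℝ | ∃ p : (ι → ZMod n → ℝ) × (Fin k → ℝ),
      P p.1 ∧ Φ p = q} ∈ 𝓝 (0 : Fin k × ZMod n → ℝ) := by
    rw [← hmap, Filter.mem_map]
    exact hP'.mono fun p hp => ⟨p, hp, rfl⟩
  have hcont : Tendsto (fun ε : ℝ => (fun q : Fin k × ZMod n =>
      -(ε * w q.2 - ε * w (sh q)) ^ 2)) (𝓝[>] 0) (𝓝 (0 : Fin k × ZMod n → ℝ)) := by
    have hc : Continuous (fun ε : ℝ => (fun q : Fin k × ZMod n =>
      -(ε * w q.2 - ε * w (sh q)) ^ 2)) := by fun_prop
    have := hc.tendsto 0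
    have h3 : (fun q : Fin k × ZMod n => -((0 : ℝ) * w q.2 - 0 * w (sh q)) ^ 2) = 0 := by
      ext q
      simp
    rw [h3] at this
    exact this.mono_left nhdsWithin_le_nhds
  obtain ⟨ε, hε, hεpos⟩ := ((hcont.eventually hmem).and self_mem_nhdsWithin).exists
  obtain ⟨p, hp, hpe⟩ := hε
  refine ⟨ε, hεpos, p.1, hp, p.2, fun j i => ?_⟩
  have := congrFun hpe (j, i)
  simp only [Φ] at this
  linarith

end Deform

end Pool.Agent.J6H78.EG
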