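import Pool.Agent.J6H78.EG.Basic

/-!
# Characters of `ZMod n`, linear independence, absence of stresses
-/

namespace Pool.Agent.J6H78.EG

open Finset

variable {n : ℕ} [NeZero n]

/-- The character with frequency `t`. -/
noncomputable def ch (t i : ZMod n) : ℂ := ZMod.stdAddChar (i * t)

/-- Cosine. -/
noncomputable def cs (t i : ZMod n) : ℝ := (ch t i).re

/-- Sine. -/
noncomputable def sn (t i : ZMod n) : ℝ := (ch t i).im

theorem sum_ch (t : ZMod n) : ∑ i, ch t i = if t = 0 then (n : ℂ) else 0 := by
  have := AddChar.sum_mulShift t (ZMod.isPrimitive_stdAddChar n)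
  simp only [ch]
  rw [this]
  simp

theorem ch_add (s t i : ZMod n) : ch (s + t) i = ch s i * ch t i := by
  simp only [ch, mul_add, AddChar.map_add_eq_mul]

theorem ch_add' (t i j : ZMod n) : ch t (i + j) = ch t i * ch t j := by
  simp only [ch, add_mul, AddChar.map_add_eq_mul]

theorem ch_comm (t i : ZMod n) : ch t i = ch i t := by
  simp only [ch, mul_comm]

@[simp] theorem ch_zero (i : ZMod n) : ch 0 i = 1 := by simp [ch]

@[simp] theorem ch_zero' (t : ZMod n) : ch t 0 = 1 := by simp [ch]

theorem ch_neg_mul (t i : ZMod n) : ch (-t) i * ch t i = 1 := by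
  rw [← ch_add]; simp

theorem norm_ch (t i : ZMod n) : ‖ch t i‖ = 1 := by
  rw [ch, ZMod.stdAddChar_apply]
  exact Circle.norm_coe _

theorem ch_neg (t i : ZMod n) : ch (-t) i = (starRingEnd ℂ) (ch t i) := by
  have h1 := ch_neg_mul t i
  have h2 : (starRingEnd ℂ) (ch t i) * ch t i = 1 := by
    rw [mul_comm, Complex.mul_conj, Complex.normSq_eq_norm_sq, norm_ch]
    simp
  have h3 : ch t i ≠ 0 := by
    intro h
    rw [h, mul_zero] at h1
    exact zero_ne_one h1
  exact mul_right_cancel₀ h3 (h1.trans h2.symm)

theorem ch_eq (t i : ZMod n) : ch t i = cs t i + sn t i * Complex.I := by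
  simp [cs, sn, Complex.re_add_im]

theorem ch_neg_eq (t i : ZMod n) : ch (-t) i = cs t i - sn t i * Complex.I := by
  rw [ch_neg, ch_eq]
  simp [sub_eq_add_neg]

theorem cs_eq (t i : ZMod n) : (cs t i : ℂ) = (ch t i + ch (-t) i) / 2 := by
  rw [ch_neg_eq, ch_eq]; ring

theorem sn_eq (t i : ZMod n) : (sn t i : ℂ) = (ch (-t) i - ch t i) * Complex.I / 2 := by
  rw [ch_neg_eq, ch_eq]
  linear_combination ((sn t i : ℂ)) * Complex.I_mul_I

theorem sum_cs_mul (t u : ZMod n) : ∑ i, (cs t i : ℂ) * ch u i =
    ((if t + u = 0 then (n : ℂ) else 0) + (if -t + u = 0 then (n : ℂ) else 0)) / 2 := by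
  rw [← sum_ch, ← sum_ch, ← Finset.sum_add_distrib, Finset.sum_div]
  refine Finset.sum_congr rfl fun i _ => ?_
  rw [cs_eq, ch_add, ch_add]
  ring

theorem sum_sn_mul (t u : ZMod n) : ∑ i, (sn t i : ℂ) * ch u i =
    ((if -t + u = 0 then (n : ℂ) else 0) - (if t + u = 0 then (n : ℂ) else 0)) *
      Complex.I / 2 := by
  rw [← sum_ch, ← sum_ch, ← Finset.sum_sub_distrib, Finset.sum_mul, Finset.sum_div]
  refine Finset.sum_congr rfl fun i _ => ?_
  rw [sn_eq, ch_add, ch_add]
  ring

theorem dist_ch (t i j : ZMod n) : (cs t i - cs t (i + j)) ^ 2 + (sn t i - sn t (i + j)) ^ 2 =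
    Complex.normSq (1 - ch t j) := by
  have h1 : Complex.normSq (ch t i) = 1 := by
    rw [Complex.normSq_eq_norm_sq, norm_ch]; simp
  have h2 : Complex.normSq (ch t i - ch t (i + j)) = Complex.normSq (1 - ch t j) := by
    have : ch t i - ch t (i + j) = ch t i * (1 - ch t j) := by
      rw [ch_add']; ring
    rw [this, map_mul, h1, one_mul]
  rw [← h2, Complex.normSq_apply]
  simp only [cs, sn, Complex.sub_re, Complex.sub_im]
  ring

/-- The coordinate functions of a configuration with frequencies `F`. -/
noncomputable def conf {m : ℕ} (F : Fin m → ZMod n) : Fin m ⊕ Fin m → ZMod n → ℝ :=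
  Sum.elim (fun s => cs (F s)) (fun s => sn (F s))

/-- The frequencies, with signs, are different. -/
structure Good {m : ℕ} (F : Fin m → ZMod n) : Prop where
  ne0 : ∀ s, F s ≠ 0
  inj : Function.Injective F
  neg : ∀ s t, F s ≠ -F t

theorem indep {m : ℕ} (F : Fin m → ZMod n) (hF : Good F) (g : ZMod n) (h4 : ∀ s, g ≠ F s)
    (h5 : ∀ s, g ≠ -F s) (h6 : g ≠ 0) :
    LinearIndependent ℝ (fun o : Option (Option (Fin m ⊕ Fin m)) =>
      o.elim (1 : ZMod n → ℝ) (fun o' => o'.elim (cs g) (conf F))) := by
  rw [Fintype.linearIndependent_iff]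
  intro c hc
  have hn : (n : ℂ) ≠ 0 := Nat.cast_ne_zero.2 (NeZero.ne n)
  have h : ∀ i : ZMod n, c none + c (some none) * cs g i +
      (∑ s, c (some (some (Sum.inl s))) * cs (F s) i +
        ∑ s, c (some (some (Sum.inr s))) * sn (F s) i) = 0 := by
    intro i
    have := congrFun hc i
    simp only [Fintype.sum_option, Fintype.sum_sum_type] at this
    simpa [conf, add_assoc] using this
  have hr : ∀ r, c (some (some (Sum.inl r))) = 0 ∧ c (some (some (Sum.inr r))) = 0 := by
    intro r
    have e : ∑ i : ZMod n, ((c none + c (some none) * cs g i +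
      (∑ s, c (some (some (Sum.inl s))) * cs (F s) i +
        ∑ s, c (some (some (Sum.inr s))) * sn (F s) i) : ℝ) : ℂ) * ch (-F r) i = 0 := by
      simp only [h]
      simp
    push_cast at e
    simp only [add_mul, Finset.sum_mul, Finset.sum_add_distrib, mul_assoc] at e
    rw [Finset.sum_comm] at e
    rw [Finset.sum_comm (f := fun (i : ZMod n) (s : Fin m) =>
      (c (some (some (Sum.inr s))) : ℂ) * ((sn (F s) i : ℂ) * ch (-F r) i))] at e
    simp only [← Finset.mul_sum, sum_ch, sum_cs_mul, sum_sn_mul] at e
    have e1 : ∀ s, (F s + -F r = 0) ↔ s = r := by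
      intro s
      rw [← sub_eq_add_neg, sub_eq_zero]
      exact hF.inj.eq_iff
    have e2 : ∀ s, ¬ (-F s + -F r = 0) := by
      intro s hs
      apply hF.neg s r
      have : -F r = F s := by
        have := neg_eq_of_add_eq_zero_right hs
        rw [neg_neg] at this
        exact this.symm
      exact this.symm
    have e3 : ¬ (g + -F r = 0) := by
      rw [← sub_eq_add_neg, sub_eq_zero]
      exact h4 r
    have e4 : ¬ (-g + -F r = 0) := by
      intro hs
      apply h5 r
      have := neg_eq_of_add_eq_zero_right hs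
      rw [neg_neg] at this
      exact this
    have e5 : ¬ (-F r = 0) := by
      rw [neg_eq_zero]
      exact hF.ne0 r
    simp only [e1, e2, e3, e4, e5, if_false, if_true] at e
    simp only [mul_zero, add_zero, zero_div, zero_add, zero_sub] at e
    have e9 : ∀ (f : Fin m → ℂ) (z : ℂ), ∑ x, f x * ((if x = r then (n : ℂ) else 0) * z) =
        f r * (n * z) := by
      intro f z
      rw [Finset.sum_eq_single r]
      · simp
      · intro b _ hb
        simp [hb]
      · intro h
        exact absurd (Finset.mem_univ r) h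
    have e10 : ∀ s : Fin m, (if s = r then (n : ℂ) else 0) / 2 =
        (if s = r then (n : ℂ) else 0) * (1 / 2) := by
      intro s; ring
    have e11 : ∀ s : Fin m, (-(if s = r then (n : ℂ) else 0)) * Complex.I / 2 =
        (if s = r then (n : ℂ) else 0) * (-Complex.I / 2) := by
      intro s; ring
    simp only [e10, e11, e9] at e
    have e6 : ((c (some (some (Sum.inl r))) : ℂ) - c (some (some (Sum.inr r))) * Complex.I) = 0 := by
      have : (n : ℂ) / 2 * ((c (some (some (Sum.inl r))) : ℂ) -
        c (some (some (Sum.inr r))) * Complex.I) = 0 := by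
        rw [← e]
        ring
      rcases mul_eq_zero.1 this with h' | h'
      · exfalso
        apply hn
        have := mul_eq_zero.1 (show (n : ℂ) / 2 * 2 = 0 by rw [h', zero_mul])
        rcases this with h'' | h''
        · simpa using h''
        · norm_num at h''
      · exact h'
    have e7 := congrArg Complex.re e6
    have e8 := congrArg Complex.im e6
    simp at e7 e8
    exact ⟨e7, e8⟩
  have h' : ∀ i : ZMod n, c none + c (some none) * cs g i = 0 := by
    intro i
    have := h i
    simpa [(hr _).1, (hr _).2] using this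
  have h0 : c none = 0 := by
    have e : ∑ i : ZMod n, ((c none + c (some none) * cs g i : ℝ) : ℂ) * ch 0 i = 0 := by
      simp only [h']
      simp
    push_cast at e
    simp only [add_mul, Finset.sum_add_distrib, mul_assoc] at e
    simp only [← Finset.mul_sum, sum_ch, sum_cs_mul] at e
    simp [h6] at e
    rcases e with e | e
    · exact e
    · exact absurd e (NeZero.ne n)
  have h1 : c (some none) = 0 := by
    have := h' 0
    rw [h0, zero_add] at this
    have e : cs g 0 = 1 := by simp [cs]
    rwa [e, mul_one] at this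
  intro o
  rcases o with _ | _ | s | s
  · exact h0
  · exact h1
  · exact (hr s).1
  · exact (hr s).2

end Pool.Agent.J6H78.EG
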