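import Pool.Agent.J6H78.EG.Basic

/-!
# Polygons in three-dimensional space with equal sides and equal angles
-/

namespace Pool.Agent.J6H78.EG

/-- Vertices of the basic polygons with `6`, `7`, `8` vertices. -/
def B6 : Fin 6 → Fin 3 → ℤ :=
  ![![0, 0, 0], ![1, 1, 0], ![0, 1, 1], ![0, 2, 0], ![-1, 1, 0], ![0, 1, -1]]

/-- The polygon with seven vertices. -/
def B7 : Fin 7 → Fin 3 → ℤ :=
  ![![0, 0, 0], ![1, 1, 0], ![0, 1, 1], ![1, 0, 1], ![0, 0, 0], ![1, -1, 0], ![1, 0, -1]]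

/-- The polygon with eight vertices. -/
def B8 : Fin 8 → Fin 3 → ℤ :=
  ![![0, 0, 0], ![1, 1, 0], ![0, 1, 1], ![1, 0, 1], ![0, 0, 0], ![1, -1, 0], ![0, -1, -1],
    ![1, 0, -1]]

/-- Squared distance. -/
def dd (a b : Fin 3 → ℤ) : ℤ := (a 0 - b 0) ^ 2 + (a 1 - b 1) ^ 2 + (a 2 - b 2) ^ 2

/-- The index of the vertex. -/
def idx (r i : ℕ) : ℕ :=
  if i < r then i else if (i - r) % 3 = 0 then 0 else if (i - r) % 3 = 1 then 1 else r - 1

theorem idx_lt {r : ℕ} (hr : 6 ≤ r) (i : ℕ) : idx r i < r := by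
  unfold idx; split_ifs <;> omega

/-- The polygon with `r + 3 q` vertices. -/
def pol (r : ℕ) (hr : 6 ≤ r) (B : Fin r → Fin 3 → ℤ) (i : ℕ) : Fin 3 → ℤ :=
  B ⟨idx r i, idx_lt hr i⟩

/-- Neighbours in the basic polygon. -/
def nbr (r a b : ℕ) : Prop := b = a + 1 ∨ b = a + 2 ∨ a = b + 1 ∨ a = b + 2 ∨
  a + r = b + 1 ∨ a + r = b + 2 ∨ b + r = a + 1 ∨ b + r = a + 2

instance (r a b : ℕ) : Decidable (nbr r a b) := by unfold nbr; infer_instance

theorem idx_cases (r i : ℕ) : (i < r ∧ idx r i = i) ∨ (∃ t, i = r + 3 * t ∧ idx r i = 0) ∨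
    (∃ t, i = r + 3 * t + 1 ∧ idx r i = 1) ∨ (∃ t, i = r + 3 * t + 2 ∧ idx r i = r - 1) := by
  unfold idx
  by_cases h : i < r
  · left; simp [h]
  · right
    rw [if_neg h]
    have : (i - r) % 3 = 0 ∨ (i - r) % 3 = 1 ∨ (i - r) % 3 = 2 := by omega
    rcases this with h1 | h1 | h1
    · left
      exact ⟨(i - r) / 3, by omega, by simp [h1]⟩
    · right; left
      exact ⟨(i - r) / 3, by omega, by simp [h1]⟩
    · right; right
      exact ⟨(i - r) / 3, by omega, by simp [h1]⟩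

theorem nbr1 (r q n i : ℕ) (hr : 6 ≤ r) (hn : n = r + 3 * q) (hi : i < n) :
    nbr r (idx r i) (idx r ((i + 1) % n)) := by
  have w1 : (i + 1 < n ∧ (i + 1) % n = i + 1) ∨ (i + 1 = n ∧ (i + 1) % n = 0) := by
    rcases (show i + 1 < n ∨ i + 1 = n by omega) with h | h
    · exact Or.inl ⟨h, Nat.mod_eq_of_lt h⟩
    · exact Or.inr ⟨h, by rw [h, Nat.mod_self]⟩
  have h0 : idx r 0 = 0 := by simp [idx, show 0 < r by omega]
  unfold nbr
  rcases w1 with ⟨h, h'⟩ | ⟨h, h'⟩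
  · rw [h']
    rcases idx_cases r i with ⟨a1, a2⟩ | ⟨t, a1, a2⟩ | ⟨t, a1, a2⟩ | ⟨t, a1, a2⟩ <;>
    rcases idx_cases r (i + 1) with ⟨b1, b2⟩ | ⟨u, b1, b2⟩ | ⟨u, b1, b2⟩ | ⟨u, b1, b2⟩ <;>
    rw [a2, b2] <;> omega
  · rw [h', h0]
    rcases idx_cases r i with ⟨a1, a2⟩ | ⟨t, a1, a2⟩ | ⟨t, a1, a2⟩ | ⟨t, a1, a2⟩ <;>
    rw [a2] <;> omega

theorem nbr2 (r q n i : ℕ) (hr : 6 ≤ r) (hn : n = r + 3 * q) (hi : i < n) :
    nbr r (idx r i) (idx r ((i + 2) % n)) := by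
  have w1 : (i + 2 < n ∧ (i + 2) % n = i + 2) ∨ (i + 2 = n ∧ (i + 2) % n = 0) ∨
      (i + 2 = n + 1 ∧ (i + 2) % n = 1) := by
    rcases (show i + 2 < n ∨ i + 2 = n ∨ i + 2 = n + 1 by omega) with h | h | h
    · exact Or.inl ⟨h, Nat.mod_eq_of_lt h⟩
    · exact Or.inr (Or.inl ⟨h, by rw [h, Nat.mod_self]⟩)
    · exact Or.inr (Or.inr ⟨h, by rw [h, Nat.add_mod_left, Nat.mod_eq_of_lt (by omega)]⟩)
  have h0 : idx r 0 = 0 := by simp [idx, show 0 < r by omega]
  have h1 : idx r 1 = 1 := by simp [idx, show 1 < r by omega]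
  unfold nbr
  rcases w1 with ⟨h, h'⟩ | ⟨h, h'⟩ | ⟨h, h'⟩
  · rw [h']
    rcases idx_cases r i with ⟨a1, a2⟩ | ⟨t, a1, a2⟩ | ⟨t, a1, a2⟩ | ⟨t, a1, a2⟩ <;>
    rcases idx_cases r (i + 2) with ⟨b1, b2⟩ | ⟨u, b1, b2⟩ | ⟨u, b1, b2⟩ | ⟨u, b1, b2⟩ <;>
    rw [a2, b2] <;> omega
  · rw [h', h0]
    rcases idx_cases r i with ⟨a1, a2⟩ | ⟨t, a1, a2⟩ | ⟨t, a1, a2⟩ | ⟨t, a1, a2⟩ <;>
    rw [a2] <;> omega
  · rw [h', h1]
    rcases idx_cases r i with ⟨a1, a2⟩ | ⟨t, a1, a2⟩ | ⟨t, a1, a2⟩ | ⟨t, a1, a2⟩ <;>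
    rw [a2] <;> omega

theorem exists_two (n : ℕ) [NeZero n] (hn : 6 ≤ n) : ∃ x : ZMod n → EuclideanSpace ℝ (Fin 3),
      (∃ c : ℕ → ℝ, ∀ j : ℕ, 1 ≤ j → j ≤ 2 → ∀ i : ZMod n,
        dist (x i) (x (i + (j : ZMod n))) = c j) ∧
      affineSpan ℝ (Set.range x) = ⊤ := by
  have main : ∀ (r : ℕ) (hr : 6 ≤ r) (B : Fin r → Fin 3 → ℤ),
    (∀ a b : Fin r, nbr r a b → dd (B a) (B b) = 2) →
    (∀ a : Fin r, (a : ℕ) = 0 → B a = ![0, 0, 0]) →
    (∀ a : Fin r, (a : ℕ) = 1 → B a = ![1, 1, 0]) →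
    (∀ a : Fin r, (a : ℕ) = 2 → B a = ![0, 1, 1]) →
    (∀ a : Fin r, (a : ℕ) = 3 → B a = ![0, 2, 0] ∨ B a = ![1, 0, 1]) →
    ∀ q, n = r + 3 * q → ∃ x : ZMod n → EuclideanSpace ℝ (Fin 3),
      (∃ c : ℕ → ℝ, ∀ j : ℕ, 1 ≤ j → j ≤ 2 → ∀ i : ZMod n,
        dist (x i) (x (i + (j : ZMod n))) = c j) ∧
      affineSpan ℝ (Set.range x) = ⊤ := by
    intro r hr B hB b0 b1 b2 b3 q hq
    let y : Fin 3 → ZMod n → ℝ := fun a i => (pol r hr B i.val a : ℝ)
    have hval : ∀ (t : ℕ) (ht : t < r), ∀ a, y a (t : ZMod n) = B ⟨t, ht⟩ a := by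
      intro t ht a
      simp only [y]
      rw [ZMod.val_natCast, Nat.mod_eq_of_lt (by omega)]
      simp [pol, idx, ht]
    obtain ⟨x, hx1, hx2, -⟩ := bridge (n := n) (ι := Fin 3) (m := 3) (by simp) 2 y (by
      rw [Fintype.linearIndependent_iff]
      intro c hc
      have ev : ∀ i : ZMod n, c none + (c (some 0) * y 0 i + c (some 1) * y 1 i +
          c (some 2) * y 2 i) = 0 := by
        intro i
        have := congrFun hc i
        simpa [Fintype.sum_option, Fin.sum_univ_three] using this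
      have v0 := ev ((0 : ℕ) : ZMod n)
      have v1 := ev ((1 : ℕ) : ZMod n)
      have v2 := ev ((2 : ℕ) : ZMod n)
      have v3 := ev ((3 : ℕ) : ZMod n)
      rw [hval 0 (by omega), hval 0 (by omega), hval 0 (by omega), b0 _ rfl] at v0
      rw [hval 1 (by omega), hval 1 (by omega), hval 1 (by omega), b1 _ rfl] at v1
      rw [hval 2 (by omega), hval 2 (by omega), hval 2 (by omega), b2 _ rfl] at v2
      rw [hval 3 (by omega), hval 3 (by omega), hval 3 (by omega)] at v3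
      have hc0 : c none = 0 := by simpa using v0
      have hc1 : c (some 0) + c (some 1) = 0 := by simpa [hc0] using v1
      have hc2 : c (some 1) + c (some 2) = 0 := by simpa [hc0] using v2
      have hall : c (some 0) = 0 ∧ c (some 1) = 0 ∧ c (some 2) = 0 := by
        rcases b3 ⟨3, by omega⟩ rfl with b3 | b3
        · rw [b3] at v3
          simp [hc0] at v3
          refine ⟨by linarith, v3, by linarith⟩
        · rw [b3] at v3
          simp [hc0] at v3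
          refine ⟨by linarith, by linarith, by linarith⟩
      intro o
      rcases o with _ | o
      · exact hc0
      · fin_cases o
        · exact hall.1
        · exact hall.2.1
        · exact hall.2.2) (fun _ => 2) (by
      intro j hj1 hj2 i
      have hi := ZMod.val_lt i
      have e : ∀ j : ℕ, nbr r (idx r i.val) (idx r ((i.val + j) % n)) →
          ∑ a, (y a i - y a (i + (j : ZMod n))) ^ 2 = 2 := by
        intro j hj
        have h5 : (i + (j : ZMod n)).val = (i.val + j) % n := by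
          rw [ZMod.val_add, ZMod.val_natCast]
          simp
        simp only [y, h5, Fin.sum_univ_three]
        have h6 := hB ⟨_, idx_lt hr i.val⟩ ⟨_, idx_lt hr ((i.val + j) % n)⟩ hj
        unfold dd at h6
        unfold pol
        exact_mod_cast h6
      interval_cases j
      · exact e 1 (nbr1 r q n i.val hr hq hi)
      · exact e 2 (nbr2 r q n i.val hr hq hi))
    exact ⟨x, hx1, hx2⟩
  have h3 : n % 3 = 0 ∨ n % 3 = 1 ∨ n % 3 = 2 := by omega
  rcases h3 with h | h | h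
  · exact main 6 (by norm_num) B6 (by decide) (by decide) (by decide) (by decide) (by decide)
      ((n - 6) / 3) (by omega)
  · exact main 7 (by norm_num) B7 (by decide) (by decide) (by decide) (by decide) (by decide)
      ((n - 7) / 3) (by omega)
  · exact main 8 (by norm_num) B8 (by decide) (by decide) (by decide) (by decide) (by decide)
      ((n - 8) / 3) (by omega)

end Pool.Agent.J6H78.EG
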