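import Pool.Agent.J6H78.EG.Freq
import Pool.Agent.J6H78.EG.Two

/-!
# Assembly
-/

namespace Pool.Agent.J6H78.EG

open Filter Topology

variable {n : ℕ} [NeZero n] {k : ℕ}

theorem conf_dist {m : ℕ} (F : Fin m → ZMod n) (i j : ZMod n) :
    ∑ a, (conf F a i - conf F a (i + j)) ^ 2 = ∑ s, Complex.normSq (1 - ch (F s) j) := by
  rw [Fintype.sum_sum_type, ← Finset.sum_add_distrib]
  refine Finset.sum_congr rfl fun s _ => ?_
  simp only [conf, Sum.elim_inl, Sum.elim_inr]
  exact dist_ch (F s) i j

theorem conf_inj {m : ℕ} (F : Fin m → ZMod n) (s : Fin m) (hs : F s = 1) (i j : ZMod n)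
    (h : ∀ a, conf F a i = conf F a j) : i = j := by
  have h1 := h (Sum.inl s)
  have h2 := h (Sum.inr s)
  simp only [conf, Sum.elim_inl, Sum.elim_inr] at h1 h2
  have h3 : ch (F s) i = ch (F s) j := by rw [ch_eq, ch_eq, h1, h2]
  rw [hs] at h3
  simp only [ch, mul_one] at h3
  exact ZMod.injective_stdAddChar h3

theorem even_case (he : Even n) (hk : 2 ≤ k) (hn : 2 * k + 1 < n) :
    ∃ x : ZMod n → EuclideanSpace ℝ (Fin (2 * k - 1)),
      (∃ c : ℕ → ℝ, ∀ j : ℕ, 1 ≤ j → j ≤ k → ∀ i : ZMod n,
        dist (x i) (x (i + (j : ZMod n))) = c j) ∧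
      affineSpan ℝ (Set.range x) = ⊤ ∧ Function.Injective x := by
  obtain ⟨r, hr⟩ := he
  let F : Fin (k - 1) → ZMod n := fun s => (((s : ℕ) + 1 : ℕ) : ZMod n)
  have hF : Good F := by
    refine ⟨?_, ?_, ?_⟩
    · intro s hs
      have := Nat.le_of_dvd (by omega) ((CharP.cast_eq_zero_iff (ZMod n) n _).1 hs)
      have := s.2
      omega
    · intro s t h
      have h1 := s.2
      have h2 := t.2
      have := cast_eq (n := n) (by omega) (by omega) h
      ext
      omega
    · intro s t h
      have h3 := cast_neg (n := n) h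
      have h1 := s.2
      have h2 := t.2
      have := Nat.le_of_dvd (by omega) h3
      omega
  let g : ZMod n := ((r : ℕ) : ZMod n)
  have hgg : -g = g := by
    have : g + g = 0 := by
      simp only [g]
      rw [← Nat.cast_add, ← hr, ZMod.natCast_self]
    exact neg_eq_of_add_eq_zero_right this
  have hg0 : g ≠ 0 := by
    intro h
    have := Nat.le_of_dvd (by omega) ((CharP.cast_eq_zero_iff (ZMod n) n _).1 h)
    omega
  have hg1 : ∀ s, g ≠ F s := by
    intro s h
    have h1 := s.2
    have := cast_eq (n := n) (by omega) (by omega) h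
    omega
  have hg2 : ∀ s, g ≠ -F s := by
    intro s h
    apply hg1 s
    rw [← hgg, h, neg_neg]
  have hsn : ∀ i, sn g i = 0 := by
    intro i
    have h1 := ch_neg_eq g i
    rw [hgg, ch_eq] at h1
    have h2 : (sn g i : ℂ) * Complex.I = 0 := by linear_combination h1 / 2
    have h3 := (mul_eq_zero.1 h2).resolve_right Complex.I_ne_zero
    exact_mod_cast h3
  have hind := indep F hF g hg1 hg2 hg0
  have hcard : Fintype.card (Option (Fin (k - 1) ⊕ Fin (k - 1))) = 2 * k - 1 := by
    simp
    omega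
  obtain ⟨x, hx1, hx2, hx3⟩ := bridge hcard k (fun o => o.elim (cs g) (conf F)) hind
    (fun j => Complex.normSq (1 - ch g (j : ZMod n)) +
      ∑ s, Complex.normSq (1 - ch (F s) (j : ZMod n))) (by
      intro j _ _ i
      rw [Fintype.sum_option]
      congr 1
      · have := dist_ch g i (j : ZMod n)
        rw [hsn, hsn] at this
        simpa using this
      · exact conf_dist F i (j : ZMod n))
  refine ⟨x, hx1, hx2, fun i j hij => ?_⟩
  have h4 := hx3 i j hij
  apply conf_inj F ⟨0, by omega⟩ (by simp [F]) i j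
  intro a
  exact h4 (some a)

theorem odd_case (ho : Odd n) (hk : 3 ≤ k) (hn' : 2 * k + 1 < n) :
    ∃ x : ZMod n → EuclideanSpace ℝ (Fin (2 * k - 1)),
      (∃ c : ℕ → ℝ, ∀ j : ℕ, 1 ≤ j → j ≤ k → ∀ i : ZMod n,
        dist (x i) (x (i + (j : ZMod n))) = c j) ∧
      affineSpan ℝ (Set.range x) = ⊤ ∧ Function.Injective x := by
  have hn : 2 * k + 3 ≤ n := by
    obtain ⟨r, hr⟩ := ho
    omega
  have hF : Good (F1 n k) := good1 hk hn
  let g : ZMod n := ((k - 1 : ℕ) : ZMod n)
  have hgH : g ∉ HS (F1 n k) := not_mem1 hk hn (k - 1) le_rfl (by omega) (by omega) (by omega)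
  rw [mem_HS] at hgH
  push Not at hgH
  obtain ⟨hg0, hg1, hg2⟩ := hgH
  have hind := indep (F1 n k) hF g (fun s => (hg1 s).symm) (fun s => (hg2 s).symm) hg0
  let P : (Fin (k - 1) ⊕ Fin (k - 1) → ZMod n → ℝ) → Prop := fun z =>
    LinearIndependent ℝ (fun o : Option (Option (Fin (k - 1) ⊕ Fin (k - 1))) =>
      o.elim (1 : ZMod n → ℝ) (fun o' => o'.elim (cs g) z)) ∧
    ∀ i j : ZMod n, i ≠ j → (fun a => z a i) ≠ (fun a => z a j)
  have hP : ∀ᶠ z in 𝓝 (conf (F1 n k)), P z := by
    apply Filter.Eventually.and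
    · have hcont : Continuous (fun z : Fin (k - 1) ⊕ Fin (k - 1) → ZMod n → ℝ =>
          (fun o : Option (Option (Fin (k - 1) ⊕ Fin (k - 1))) =>
            o.elim (1 : ZMod n → ℝ) (fun o' => o'.elim (cs g) z))) := by
        refine continuous_pi fun o => ?_
        rcases o with _ | _ | a
        · exact continuous_const
        · exact continuous_const
        · exact continuous_apply a
      exact hcont.continuousAt.eventually
        (isOpen_setOfPred_linearIndependent.mem_nhds (show LinearIndependent ℝ _ from hind))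
    · rw [Filter.eventually_all]
      intro i
      rw [Filter.eventually_all]
      intro j
      by_cases hij : i = j
      · exact Filter.Eventually.of_forall fun z h => absurd hij h
      · have h1 : (fun a => conf (F1 n k) a i) ≠ (fun a => conf (F1 n k) a j) := by
          intro h
          apply hij
          apply conf_inj (F1 n k) ⟨0, by omega⟩ _ i j (fun a => congrFun h a)
          simp only [F1, Fn]
          rw [if_neg (by omega)]
          simp
        have hc : Continuous (fun z : Fin (k - 1) ⊕ Fin (k - 1) → ZMod n → ℝ =>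
          ((fun a => z a i), (fun a => z a j))) := by fun_prop
        have h2 : IsOpen {p : (Fin (k - 1) ⊕ Fin (k - 1) → ℝ) × (Fin (k - 1) ⊕ Fin (k - 1) → ℝ) |
          p.1 ≠ p.2} := isOpen_ne_fun continuous_fst continuous_snd
        exact (hc.continuousAt.eventually (h2.mem_nhds h1)).mono fun z hz _ => hz
  obtain ⟨ε, hε, z, ⟨hz1, hz2⟩, c', hc'⟩ := deform (k := k) (conf (F1 n k))
    (fun j => ∑ s, Complex.normSq (1 - ch (F1 n k s) (((j : ℕ) + 1 : ℕ) : ZMod n)))
    (fun j i => conf_dist (F1 n k) i _)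
    (fun l h0 hl => no_stress ho (F1 n k) (fun x hx => card_ok ho hk hn x hx) l h0 hl)
    P hP (cs g)
  have hcard : Fintype.card (Option (Fin (k - 1) ⊕ Fin (k - 1))) = 2 * k - 1 := by
    simp
    omega
  have hind2 : LinearIndependent ℝ (fun o : Option (Option (Fin (k - 1) ⊕ Fin (k - 1))) =>
      o.elim (1 : ZMod n → ℝ) (fun o' => o'.elim (fun i => ε * cs g i) z)) := by
    have h1 := hz1.units_smul (fun o => match o with
      | none => 1
      | some none => Units.mk0 ε hε.ne'
      | some (some _) => 1)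
    convert h1 using 1
    ext o i
    rcases o with _ | _ | a
    · simp
    · simp [Units.smul_def]
    · simp
  obtain ⟨x, hx1, hx2, hx3⟩ := bridge hcard k (fun o => o.elim (fun i => ε * cs g i) z) hind2
    (fun j => if h : 1 ≤ j ∧ j ≤ k then c' ⟨j - 1, by omega⟩ else 0) (by
      intro j h1 h2 i
      rw [dif_pos ⟨h1, h2⟩, Fintype.sum_option]
      have h3 := hc' ⟨j - 1, by omega⟩ i
      have h4 : sh ((⟨j - 1, by omega⟩ : Fin k), i) = i + (j : ZMod n) := by
        simp only [sh]
        rw [Nat.sub_add_cancel h1]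
      rw [h4] at h3
      rw [← h3]
      simp only [Option.elim_none, Option.elim_some]
      ring)
  refine ⟨x, hx1, hx2, fun i j hij => ?_⟩
  by_contra hne
  exact hz2 i j hne (funext fun a => hx3 i j hij (some a))

theorem all_cases (k n : ℕ) (hk : 2 ≤ k) (hn : 2 * k + 1 < n) :
    ∃ x : ZMod n → EuclideanSpace ℝ (Fin (2 * k - 1)),
      (∃ c : ℕ → ℝ, ∀ j : ℕ, 1 ≤ j → j ≤ k → ∀ i : ZMod n,
        dist (x i) (x (i + (j : ZMod n))) = c j) ∧
      affineSpan ℝ (Set.range x) = ⊤ ∧ (3 ≤ k → Function.Injective x) := by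
  have : NeZero n := ⟨by omega⟩
  rcases Nat.even_or_odd n with he | ho
  · obtain ⟨x, h1, h2, h3⟩ := even_case he hk hn
    exact ⟨x, h1, h2, fun _ => h3⟩
  · rcases (show k = 2 ∨ 3 ≤ k by omega) with rfl | h
    · obtain ⟨x, h1, h2⟩ := exists_two n (by omega)
      exact ⟨x, h1, h2, fun h => by omega⟩
    · obtain ⟨x, h1, h2, h3⟩ := odd_case ho h hn
      exact ⟨x, h1, h2, fun _ => h3⟩

end Pool.Agent.J6H78.EG
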