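import Pool.Agent.J6H78.EG.Stress

/-!
# The choice of the frequencies
-/

namespace Pool.Agent.J6H78.EG

open Finset

variable {n : ℕ} [NeZero n] {k : ℕ}

/-- The natural numbers `1, …, k - 2, k`. -/
def Fn (k : ℕ) (s : Fin (k - 1)) : ℕ := if (s : ℕ) + 2 = k then k else s + 1

/-- The frequencies `1, …, k - 2, k`. -/
def F1 (n k : ℕ) (s : Fin (k - 1)) : ZMod n := (Fn k s : ZMod n)

theorem Fn_pos (s : Fin (k - 1)) : 0 < Fn k s := by
  unfold Fn; split_ifs <;> omega

theorem Fn_le (s : Fin (k - 1)) : Fn k s ≤ k := by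
  have := s.2
  unfold Fn; split_ifs <;> omega

theorem Fn_ne (s : Fin (k - 1)) : Fn k s ≠ k - 1 := by
  have := s.2
  unfold Fn; split_ifs <;> omega

theorem Fn_inj : Function.Injective (Fn k) := by
  intro s t h
  have h1 := s.2
  have h2 := t.2
  unfold Fn at h
  ext
  split_ifs at h <;> omega

theorem Fn_surj (hk : 3 ≤ k) (a : ℕ) (h : (1 ≤ a ∧ a ≤ k - 2) ∨ a = k) : ∃ s, Fn k s = a := by
  rcases h with ⟨h1, h2⟩ | h
  · refine ⟨⟨a - 1, by omega⟩, ?_⟩
    simp only [Fn]
    split_ifs <;> omega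
  · refine ⟨⟨k - 2, by omega⟩, ?_⟩
    simp only [Fn]
    split_ifs <;> omega

omit [NeZero n] in
theorem cast_eq {a b : ℕ} (ha : a < n) (hb : b < n) (h : (a : ZMod n) = b) : a = b := by
  have := (ZMod.natCast_eq_natCast_iff' a b n).1 h
  rwa [Nat.mod_eq_of_lt ha, Nat.mod_eq_of_lt hb] at this

omit [NeZero n] in
theorem cast_neg {a b : ℕ} (h : (a : ZMod n) = -b) : n ∣ a + b := by
  rw [← CharP.cast_eq_zero_iff (ZMod n) n, Nat.cast_add, h]
  ring

omit [NeZero n] in
theorem good1 (hk : 3 ≤ k) (hn : 2 * k + 3 ≤ n) : Good (F1 n k) where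
  ne0 := by
    intro s hs
    have := (CharP.cast_eq_zero_iff (ZMod n) n _).1 hs
    have h1 := Nat.le_of_dvd (Fn_pos s) this
    have h2 := Fn_le s
    omega
  inj := by
    intro s t h
    apply Fn_inj
    have h1 := Fn_le s
    have h2 := Fn_le t
    exact cast_eq (n := n) (by omega) (by omega) h
  neg := by
    intro s t h
    have h3 := cast_neg (n := n) h
    have h1 := Fn_le s
    have h2 := Fn_le t
    have h4 := Fn_pos s
    have := Nat.le_of_dvd (by omega) h3
    omega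

omit [NeZero n] in
theorem mem1 (hk : 3 ≤ k) (a : ℕ) (h : a ≤ k - 2 ∨ a = k) : (a : ZMod n) ∈ HS (F1 n k) := by
  rw [mem_HS]
  by_cases h0 : a = 0
  · left; simp [h0]
  · right; left
    obtain ⟨s, hs⟩ := Fn_surj hk a (by omega)
    exact ⟨s, by rw [F1, hs]⟩

omit [NeZero n] in
theorem neg_mem1 {x : ZMod n} (h : x ∈ HS (F1 n k)) : -x ∈ HS (F1 n k) := by
  rw [mem_HS] at h ⊢
  rcases h with rfl | ⟨s, rfl⟩ | ⟨s, rfl⟩
  · left; simp
  · right; right; exact ⟨s, rfl⟩
  · right; left; exact ⟨s, by simp⟩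

omit [NeZero n] in
theorem mem1' (hk : 3 ≤ k) (a b : ℕ) (h : (a ≤ b + (k - 2) ∧ b ≤ a + (k - 2)) ∨ a = b + k ∨
    b = a + k) : (a : ZMod n) - b ∈ HS (F1 n k) := by
  rcases le_total a b with hab | hab
  · rw [← neg_sub, ← Nat.cast_sub hab]
    apply neg_mem1
    apply mem1 hk
    omega
  · rw [← Nat.cast_sub hab]
    apply mem1 hk
    omega

omit [NeZero n] in
theorem not_mem1 (hk : 3 ≤ k) (hn : 2 * k + 3 ≤ n) (a : ℕ) (h1 : k - 1 ≤ a) (h2 : a + k ≤ n + 1)
    (h3 : a ≠ k) (h4 : a + k ≠ n) : (a : ZMod n) ∉ HS (F1 n k) := by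
  intro h
  rw [mem_HS] at h
  rcases h with h | ⟨s, h⟩ | ⟨s, h⟩
  · have := Nat.le_of_dvd (by omega) ((CharP.cast_eq_zero_iff (ZMod n) n _).1 h)
    omega
  · have e1 := Fn_le s
    have e2 := Fn_ne s
    have := cast_eq (n := n) (by omega) (by omega) h
    have e3 : (s : ℕ) < k - 1 := s.2
    unfold Fn at this
    split_ifs at this <;> omega
  · have h' := cast_neg (n := n) h.symm
    have e1 := Fn_le s
    have e3 : (s : ℕ) < k - 1 := s.2
    obtain ⟨q, hq⟩ := h'
    have e4 : q = 1 := by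
      have : q < 2 := by
        by_contra hq2
        have : n * 2 ≤ n * q := Nat.mul_le_mul_left n (by omega)
        omega
      have : q ≠ 0 := by
        rintro rfl
        omega
      omega
    subst e4
    unfold Fn at hq
    split_ifs at hq <;> omega

omit [NeZero n] in
theorem card_HS {m : ℕ} (F : Fin m → ZMod n) (hF : Good F) : #(HS F) = 2 * m + 1 := by
  unfold HS
  have e1 : #(univ.image (fun s => -F s)) = m := by
    rw [Finset.card_image_of_injective _ (f := fun s => -F s) (neg_injective.comp hF.inj)]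
    simp
  rw [Finset.card_insert_of_notMem, Finset.card_union_of_disjoint,
    Finset.card_image_of_injective _ hF.inj, e1]
  · simp
    ring
  · rw [Finset.disjoint_left]
    intro x hx hx'
    obtain ⟨s, _, rfl⟩ := Finset.mem_image.1 hx
    obtain ⟨t, _, ht⟩ := Finset.mem_image.1 hx'
    exact hF.neg s t ht.symm
  · intro h
    rcases Finset.mem_union.1 h with h | h
    · obtain ⟨s, _, hs⟩ := Finset.mem_image.1 h
      exact hF.ne0 s hs
    · obtain ⟨s, _, hs⟩ := Finset.mem_image.1 h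
      exact hF.ne0 s (neg_eq_zero.1 hs)

omit [NeZero n] in
/-- Two new elements. -/
theorem two_new (hk : 3 ≤ k) (hn : 2 * k + 3 ≤ n) (d : ℕ) (h1 : 1 ≤ d) (h2 : 2 * d ≤ n) :
    ∃ a b : ZMod n, a ≠ b ∧ a ∉ HS (F1 n k) ∧ b ∉ HS (F1 n k) ∧
      (d : ZMod n) - a ∈ HS (F1 n k) ∧ (d : ZMod n) - b ∈ HS (F1 n k) := by
  have key : ∀ a b : ℕ, a < b → b < n → k - 1 ≤ a → b + k ≤ n + 1 → a ≠ k → b ≠ k → a + k ≠ n →
      b + k ≠ n → ((d ≤ a + (k - 2) ∧ a ≤ d + (k - 2)) ∨ d = a + k ∨ a = d + k) →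
      ((d ≤ b + (k - 2) ∧ b ≤ d + (k - 2)) ∨ d = b + k ∨ b = d + k) →
      ∃ a b : ZMod n, a ≠ b ∧ a ∉ HS (F1 n k) ∧ b ∉ HS (F1 n k) ∧
      (d : ZMod n) - a ∈ HS (F1 n k) ∧ (d : ZMod n) - b ∈ HS (F1 n k) := by
    intro a b hab hb h3 h4 h5 h6 h7 h8 h9 h10
    refine ⟨a, b, ?_, not_mem1 hk hn a h3 (by omega) h5 h7, not_mem1 hk hn b (by omega) h4 h6 h8,
      mem1' hk d a h9, mem1' hk d b h10⟩
    intro h
    have := cast_eq (n := n) (by omega) hb h
    omega
  by_cases c1 : k + 1 ≤ d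
  · exact key d (d + 1) (by omega) (by omega) (by omega) (by omega) (by omega) (by omega)
      (by omega) (by omega) (by omega) (by omega)
  · by_cases c2 : d = 2
    · exact key (k - 1) (k + 2) (by omega) (by omega) (by omega) (by omega) (by omega) (by omega)
        (by omega) (by omega) (by omega) (by omega)
    · exact key (k - 1) (k + 1) (by omega) (by omega) (by omega) (by omega) (by omega) (by omega)
        (by omega) (by omega) (by omega) (by omega)

theorem two_new' (hk : 3 ≤ k) (hn : 2 * k + 3 ≤ n) (d : ZMod n) (hd : d ≠ 0) :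
    ∃ a b : ZMod n, a ≠ b ∧ a ∉ HS (F1 n k) ∧ b ∉ HS (F1 n k) ∧
      d - a ∈ HS (F1 n k) ∧ d - b ∈ HS (F1 n k) := by
  have h1 : d.val ≠ 0 := by rwa [Ne, ZMod.val_eq_zero]
  have h3 : ((d.val : ℕ) : ZMod n) = d := ZMod.natCast_zmod_val d
  have h4 := ZMod.val_lt d
  by_cases h2 : 2 * d.val ≤ n
  · have := two_new hk hn d.val (by omega) h2
    rwa [h3] at this
  · have := two_new hk hn (n - d.val) (by omega) (by omega)
    have h5 : ((n - d.val : ℕ) : ZMod n) = -d := by
      rw [Nat.cast_sub h4.le, h3, ZMod.natCast_self, zero_sub]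
    rw [h5] at this
    obtain ⟨a, b, hab, ha, hb, ha', hb'⟩ := this
    refine ⟨-a, -b, fun h => hab (neg_injective h), fun h => ha ?_, fun h => hb ?_, ?_, ?_⟩
    · simpa using neg_mem1 h
    · simpa using neg_mem1 h
    · have := neg_mem1 ha'
      rwa [show -(-d - a) = d - -a by ring] at this
    · have := neg_mem1 hb'
      rwa [show -(-d - b) = d - -b by ring] at this

theorem card_ok (hodd : Odd n) (hk : 3 ≤ k) (hn : 2 * k + 3 ≤ n) (x : ZMod n) (hx : x ≠ 0) :
    2 * k + 1 ≤ #((HS (F1 n k)).image (fun h => x - h) ∪ (HS (F1 n k)).image (fun h => h - x)) := by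
  have hd : x + x ≠ 0 := by
    intro h
    apply hx
    obtain ⟨r, hr⟩ := hodd
    have : ((2 * r + 1 : ℕ) : ZMod n) = 0 := by
      rw [← hr]
      exact ZMod.natCast_self n
    push_cast at this
    linear_combination x * this - r * h
  obtain ⟨a, b, hab, ha, hb, ha', hb'⟩ := two_new' hk hn (x + x) hd
  have h1 : #(insert a (insert b (HS (F1 n k)))) = 2 * k + 1 := by
    rw [Finset.card_insert_of_notMem, Finset.card_insert_of_notMem hb, card_HS _ (good1 hk hn)]
    · omega
    · intro h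
      rcases Finset.mem_insert.1 h with h | h
      · exact hab h
      · exact ha h
  rw [← h1]
  apply Finset.card_le_card_of_injOn (fun y => y - x)
  · intro y hy
    rw [Finset.mem_coe] at hy ⊢
    simp only [Finset.mem_union, Finset.mem_image]
    rcases Finset.mem_insert.1 hy with rfl | hy
    · exact Or.inl ⟨_, ha', by ring⟩
    · rcases Finset.mem_insert.1 hy with rfl | hy
      · exact Or.inl ⟨_, hb', by ring⟩
      · exact Or.inr ⟨y, hy, rfl⟩
  · intro y _ z _ h
    exact sub_left_injective h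

end Pool.Agent.J6H78.EG
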