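import Pool.Agent.J6H78.EG.Char

/-!
# Absence of stresses
-/

namespace Pool.Agent.J6H78.EG

open Finset

variable {n : ℕ} [NeZero n] {k : ℕ}

/-- The frequencies with both signs, and zero. -/
def HS {m : ℕ} (F : Fin m → ZMod n) : Finset (ZMod n) :=
  insert 0 (univ.image F ∪ univ.image (fun s => -F s))

omit [NeZero n] in
theorem mem_HS {m : ℕ} {F : Fin m → ZMod n} {x : ZMod n} :
    x ∈ HS F ↔ x = 0 ∨ (∃ s, F s = x) ∨ ∃ s, -F s = x := by
  simp [HS]

/-- The bilinear form of a stress. -/
noncomputable def T (l : Fin k → ZMod n → ℝ) (a b : ZMod n → ℂ) : ℂ :=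
  ∑ j : Fin k, ∑ i, (l j i : ℂ) * (a i - a (sh (j, i))) * (b i - b (sh (j, i)))

omit [NeZero n] in
theorem T_congr [NeZero n] (l : Fin k → ZMod n → ℝ) {a a' b b' : ZMod n → ℂ} (h1 : ∀ i, a i = a' i)
    (h2 : ∀ i, b i = b' i) : T l a b = T l a' b' := by
  simp only [T, h1, h2]

theorem T_comb (l : Fin k → ZMod n → ℝ) (a b u v : ZMod n → ℝ) (x y : ℂ) :
    T l (fun i => a i + b i * x) (fun i => u i + v i * y) =
      T l (fun i => a i) (fun i => u i) + T l (fun i => a i) (fun i => v i) * y +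
      T l (fun i => b i) (fun i => u i) * x + T l (fun i => b i) (fun i => v i) * (x * y) := by
  simp only [T, Finset.sum_mul, ← Finset.sum_add_distrib]
  refine Finset.sum_congr rfl fun j _ => Finset.sum_congr rfl fun i _ => ?_
  ring

theorem T_real (l : Fin k → ZMod n → ℝ) (a u : ZMod n → ℝ) :
    T l (fun i => a i) (fun i => u i) =
      ((∑ j : Fin k, ∑ i, l j i * (a i - a (sh (j, i))) * (u i - u (sh (j, i))) : ℝ) : ℂ) := by
  simp only [T]
  push_cast
  rfl

/-- The Fourier coefficients of a stress. -/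
noncomputable def Lam (l : Fin k → ZMod n → ℝ) (j : Fin k) (s : ZMod n) : ℂ :=
  ∑ i, (l j i : ℂ) * ch s i

theorem T_ch (l : Fin k → ZMod n → ℝ) (h t : ZMod n) :
    T l (ch h) (ch t) = ∑ j : Fin k, (1 - ch h (((j : ℕ) + 1 : ℕ) : ZMod n)) *
      (1 - ch t (((j : ℕ) + 1 : ℕ) : ZMod n)) * Lam l j (h + t) := by
  simp only [T, Lam, Finset.mul_sum]
  refine Finset.sum_congr rfl fun j _ => Finset.sum_congr rfl fun i _ => ?_
  simp only [sh, ch_add', ch_add]
  ring

theorem Lam_eq_zero (l : Fin k → ZMod n → ℝ) (h : ∀ j s, Lam l j s = 0) : l = 0 := by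
  ext j i
  have h1 : ∑ s, Lam l j s * ch (-s) i = (n : ℂ) * l j i := by
    simp only [Lam, Finset.sum_mul]
    rw [Finset.sum_comm]
    have h2 : ∀ i' : ZMod n, ∑ s, (l j i' : ℂ) * ch s i' * ch (-s) i =
        if i' = i then (n : ℂ) * l j i else 0 := by
      intro i'
      have h3 : ∀ s : ZMod n, (l j i' : ℂ) * ch s i' * ch (-s) i = l j i' * ch (i' - i) s := by
        intro s
        rw [ch_comm (i' - i) s, sub_eq_add_neg, ch_add', mul_assoc]
        congr 2
        simp [ch]
      simp only [h3, ← Finset.mul_sum, sum_ch, sub_eq_zero]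
      split_ifs with h4
      · rw [h4]; ring
      · simp
    simp only [h2, Finset.sum_ite_eq', Finset.mem_univ, if_true]
  simp only [h, zero_mul, Finset.sum_const_zero] at h1
  have hn : (n : ℂ) ≠ 0 := Nat.cast_ne_zero.2 (NeZero.ne n)
  have := (mul_eq_zero.1 h1.symm).resolve_left hn
  exact_mod_cast this

open Polynomial in
theorem poly (μ : Fin k → ℂ) (G : ℂ) (S : Finset (ZMod n)) (hS : 2 * k + 1 ≤ #S)
    (h : ∀ x ∈ S, ∑ j : Fin k, μ j * (ch x (((j : ℕ) + 1 : ℕ) : ZMod n) +
      ch (-x) (((j : ℕ) + 1 : ℕ) : ZMod n)) = G) : μ = 0 := by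
  classical
  let P : ℂ[X] := ∑ j : Fin k, C (μ j) * (X ^ (k + ((j : ℕ) + 1)) + X ^ (k - ((j : ℕ) + 1))) -
    C G * X ^ k
  have hchpow : ∀ (x : ZMod n) (j : ℕ), ch x (j : ZMod n) = ch x 1 ^ j := by
    intro x j
    induction j with
    | zero => simp
    | succ j ih => rw [Nat.cast_succ, ch_add', ih, pow_succ]
  have hP : P = 0 := by
    apply Polynomial.eq_zero_of_natDegree_lt_card_of_eval_eq_zero' P (S.image (fun x => ch x 1))
    · intro z hz
      obtain ⟨x, hx, rfl⟩ := Finset.mem_image.1 hz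
      have h1 : P.eval (ch x 1) = ch x 1 ^ k * (∑ j : Fin k, μ j *
          (ch x (((j : ℕ) + 1 : ℕ) : ZMod n) + ch (-x) (((j : ℕ) + 1 : ℕ) : ZMod n)) - G) := by
        simp only [P, eval_sub, eval_finsetSum, eval_mul, eval_C, eval_add, eval_pow, eval_X,
          mul_sub, Finset.mul_sum]
        congr 1
        · refine Finset.sum_congr rfl fun j _ => ?_
          have h2 : ch x 1 ^ k * ch (-x) (((j : ℕ) + 1 : ℕ) : ZMod n) =
              ch x 1 ^ (k - ((j : ℕ) + 1)) := by
            have h3 : k = (k - ((j : ℕ) + 1)) + ((j : ℕ) + 1) := by omega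
            have h4 : ch x 1 ^ k = ch x 1 ^ (k - ((j : ℕ) + 1)) * ch x 1 ^ ((j : ℕ) + 1) := by
              rw [← pow_add, ← h3]
            have h5 : ch x 1 ^ ((j : ℕ) + 1) * ch (-x) (((j : ℕ) + 1 : ℕ) : ZMod n) = 1 := by
              rw [← hchpow, mul_comm, ch_neg_mul]
            rw [h4, mul_assoc, h5, mul_one]
          rw [hchpow x, pow_add]
          linear_combination (-μ j) * h2
        · ring
      rw [h1, h x hx, sub_self, mul_zero]
    · rw [Finset.card_image_of_injective]
      · have : P.natDegree ≤ 2 * k := by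
          apply (natDegree_sub_le _ _).trans
          apply max_le
          · apply natDegree_sum_le_of_forall_le
            intro j _
            apply (natDegree_C_mul_le _ _).trans
            apply (natDegree_add_le _ _).trans
            rw [natDegree_X_pow, natDegree_X_pow]
            have := j.2
            apply max_le <;> omega
          · apply (natDegree_C_mul_X_pow_le _ _).trans
            omega
        omega
      · intro x y hxy
        have : ZMod.stdAddChar (1 * x) = ZMod.stdAddChar (1 * y) := hxy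
        rw [one_mul, one_mul] at this
        exact ZMod.injective_stdAddChar this
  ext j
  have h1 : P.coeff (k + ((j : ℕ) + 1)) = μ j := by
    simp only [P, coeff_sub, finsetSum_coeff, coeff_C_mul, coeff_add, coeff_X_pow]
    rw [Finset.sum_eq_single j]
    · have e1 : ¬ (k + ((j : ℕ) + 1) = k - ((j : ℕ) + 1)) := by omega
      have e2 : ¬ (k + ((j : ℕ) + 1) = k) := by omega
      rw [if_neg e1, if_neg e2]
      simp
    · intro b _ hb
      have e1 : ¬ (k + ((j : ℕ) + 1) = k - ((b : ℕ) + 1)) := by omega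
      have e2 : ¬ (k + ((j : ℕ) + 1) = k + ((b : ℕ) + 1)) := by
        intro e
        apply hb
        ext
        omega
      rw [if_neg e1, if_neg e2]
      simp
    · intro h
      exact absurd (Finset.mem_univ j) h
  rw [← h1, hP]
  simp

/-- A configuration with good frequencies has no stress. -/
theorem no_stress (hodd : Odd n) {m : ℕ} (F : Fin m → ZMod n)
    (hH : ∀ x : ZMod n, x ≠ 0 → 2 * k + 1 ≤
      #((HS F).image (fun h => x - h) ∪ (HS F).image (fun h => h - x)))
    (l : Fin k → ZMod n → ℝ) (h0 : ∀ j, ∑ i, l j i = 0)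
    (hl : ∀ (a : Fin m ⊕ Fin m) (v : ZMod n → ℝ), ∑ j : Fin k, ∑ i, l j i *
        (conf F a i - conf F a (sh (j, i))) * (v i - v (sh (j, i))) = 0) : l = 0 := by
  have key1 : ∀ (h : ZMod n), h ∈ HS F → ∀ t, T l (ch h) (ch t) = 0 := by
    intro h hh t
    have hc : ∀ (a : Fin m ⊕ Fin m) (v : ZMod n → ℝ),
        T l (fun i => (conf F a i : ℂ)) (fun i => v i) = 0 := by
      intro a v
      rw [T_real, hl a v]
      simp
    rcases mem_HS.1 hh with rfl | ⟨s, rfl⟩ | ⟨s, rfl⟩
    · rw [T_ch]
      simp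
    · rw [T_congr l (fun i => ch_eq (F s) i) (fun i => ch_eq t i), T_comb]
      have e1 := hc (Sum.inl s) (cs t)
      have e2 := hc (Sum.inl s) (sn t)
      have e3 := hc (Sum.inr s) (cs t)
      have e4 := hc (Sum.inr s) (sn t)
      simp only [conf, Sum.elim_inl, Sum.elim_inr] at e1 e2 e3 e4
      rw [e1, e2, e3, e4]
      ring
    · have e0 : ∀ i, ch (-F s) i = cs (F s) i + sn (F s) i * (-Complex.I) := by
        intro i
        rw [ch_neg_eq]; ring
      rw [T_congr l e0 (fun i => ch_eq t i), T_comb]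
      have e1 := hc (Sum.inl s) (cs t)
      have e2 := hc (Sum.inl s) (sn t)
      have e3 := hc (Sum.inr s) (cs t)
      have e4 := hc (Sum.inr s) (sn t)
      simp only [conf, Sum.elim_inl, Sum.elim_inr] at e1 e2 e3 e4
      rw [e1, e2, e3, e4]
      ring
  have key2 : ∀ x : ZMod n, x ≠ 0 → ∀ j, Lam l j (x + x) = 0 := by
    intro x hx
    let μ : Fin k → ℂ := fun j => Lam l j (x + x) * ch x (((j : ℕ) + 1 : ℕ) : ZMod n)
    have hμ : μ = 0 := by
      apply poly μ (∑ j : Fin k, μ j * (ch x (((j : ℕ) + 1 : ℕ) : ZMod n) +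
        ch (-x) (((j : ℕ) + 1 : ℕ) : ZMod n))) _ (hH x hx)
      have h1 : ∀ h ∈ HS F, ∑ j : Fin k, μ j * (ch (x - h) (((j : ℕ) + 1 : ℕ) : ZMod n) +
          ch (-(x - h)) (((j : ℕ) + 1 : ℕ) : ZMod n)) =
          ∑ j : Fin k, μ j * (ch x (((j : ℕ) + 1 : ℕ) : ZMod n) +
            ch (-x) (((j : ℕ) + 1 : ℕ) : ZMod n)) := by
        intro h hh
        have h2 := key1 h hh (x + x - h)
        rw [T_ch] at h2
        rw [← sub_eq_zero, ← Finset.sum_sub_distrib, ← neg_eq_zero, ← h2,
          ← Finset.sum_neg_distrib]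
        refine Finset.sum_congr rfl fun j _ => ?_
        simp only [μ]
        rw [show h + (x + x - h) = x + x by ring]
        have e1 : ch (x + x - h) (((j : ℕ) + 1 : ℕ) : ZMod n) =
            ch x (((j : ℕ) + 1 : ℕ) : ZMod n) * ch (x - h) (((j : ℕ) + 1 : ℕ) : ZMod n) := by
          rw [← ch_add]; congr 1; ring
        have e2 : ch h (((j : ℕ) + 1 : ℕ) : ZMod n) =
            ch x (((j : ℕ) + 1 : ℕ) : ZMod n) * ch (-(x - h)) (((j : ℕ) + 1 : ℕ) : ZMod n) := by
          rw [← ch_add]; congr 1; ring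
        have e3 := ch_neg_mul x (((j : ℕ) + 1 : ℕ) : ZMod n)
        have e4 := ch_neg_mul (x - h) (((j : ℕ) + 1 : ℕ) : ZMod n)
        rw [e1, e2]
        linear_combination Lam l j (x + x) * e3 -
          Lam l j (x + x) * ch x (((j : ℕ) + 1 : ℕ) : ZMod n) ^ 2 * e4
      intro y hy
      rcases Finset.mem_union.1 hy with hy | hy
      · obtain ⟨h, hh, rfl⟩ := Finset.mem_image.1 hy
        exact h1 h hh
      · obtain ⟨h, hh, rfl⟩ := Finset.mem_image.1 hy
        rw [← h1 h hh]
        refine Finset.sum_congr rfl fun j _ => ?_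
        rw [show -(h - x) = x - h by ring, show -(x - h) = h - x by ring]
        ring
    intro j
    have h3 := congrFun hμ j
    have h4 : ch x (((j : ℕ) + 1 : ℕ) : ZMod n) ≠ 0 := by
      intro h
      have := norm_ch x (((j : ℕ) + 1 : ℕ) : ZMod n)
      rw [h] at this
      simp at this
    exact (mul_eq_zero.1 h3).resolve_right h4
  apply Lam_eq_zero
  intro j s
  by_cases hs : s = 0
  · rw [hs]
    simp only [Lam, ch_zero, mul_one]
    exact_mod_cast h0 j
  · obtain ⟨r, hr⟩ := hodd
    have h2 : ((r + 1 : ℕ) : ZMod n) * s + ((r + 1 : ℕ) : ZMod n) * s = s := by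
      have : ((2 * r + 1 : ℕ) : ZMod n) = 0 := by
        rw [← hr]
        exact ZMod.natCast_self n
      push_cast at this ⊢
      linear_combination s * this
    rw [← h2]
    apply key2
    intro h
    rw [h] at h2
    apply hs
    rw [← h2]
    ring

end Pool.Agent.J6H78.EG
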